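import Pool.Agent.P.MP_74db7f_al.Defs

namespace Pool.Agent.P.MP_74db7f_al

universe u v

/-- The left Kazhdan-Lusztig preorder. -/
def LeL {W : Type v} {H : Type u} [Ring H] [Algebra (LaurentPolynomial ℤ) H]
    (Cb : Module.Basis W (LaurentPolynomial ℤ) H) : W → W → Prop :=
  Relation.ReflTransGen fun x y => ∃ h : H, Cb.repr (h * Cb y) x ≠ 0

/-- Left cells. -/
def IsLeftCell {W : Type v} {H : Type u} [Ring H] [Algebra (LaurentPolynomial ℤ) H]
    (Cb : Module.Basis W (LaurentPolynomial ℤ) H) (Γ : Set W) : Prop :=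
  ∃ y, Γ = {x | LeL Cb x y ∧ LeL Cb y x}

end Pool.Agent.P.MP_74db7f_al
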