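import Pool.Agent.P.MP_74db7f_al.Fold

namespace Pool.Agent.P.MP_74db7f_al

open Matrix CoxeterSystem LaurentPolynomial

/-- Laurent polynomials of degree at most `n` -/
def dR (n : ℤ) : AddSubgroup (LaurentPolynomial ℤ) where
  carrier := {r | ∀ k, n < k → r.coeff k = 0}
  zero_mem' := fun k _ => by simp
  add_mem' := fun {a b} ha hb k hk => by simp [ha k hk, hb k hk]
  neg_mem' := fun {a} ha k hk => by simp [ha k hk]

theorem mem_dR {n : ℤ} {r : LaurentPolynomial ℤ} : r ∈ dR n ↔ ∀ k, n < k → r.coeff k = 0 :=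
  Iff.rfl

theorem dR_mono {m n : ℤ} (h : m ≤ n) {r : LaurentPolynomial ℤ} (hr : r ∈ dR m) : r ∈ dR n :=
  fun k hk => hr k (by omega)

theorem T_mem_dR {m n : ℤ} (h : m ≤ n) : (T m : LaurentPolynomial ℤ) ∈ dR n := fun k hk => by
  rw [T_apply, if_neg (by omega)]

theorem mul_mem_dR {m n : ℤ} {r s : LaurentPolynomial ℤ} (hr : r ∈ dR m) (hs : s ∈ dR n) :
    r * s ∈ dR (m + n) := by
  intro k hk
  rw [AddMonoidAlgebra.coeff_mul]
  refine Finset.sum_eq_zero fun a ha => Finset.sum_eq_zero fun b hb => ?_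
  have h1 : a ≤ m := not_lt.1 fun h => Finsupp.mem_support_iff.1 ha (hr a h)
  have h2 : b ≤ n := not_lt.1 fun h => Finsupp.mem_support_iff.1 hb (hs b h)
  exact if_neg (by omega)

theorem coeff_T_mul (m k : ℤ) (r : LaurentPolynomial ℤ) : (T m * r).coeff k = r.coeff (k - m) := by
  have := AddMonoidAlgebra.coeff_single_mul_add r (1 : ℤ) m (k - m)
  rw [one_mul, add_sub_cancel] at this
  exact this

variable {W : Type*} {H : Type*} [Ring H] [Algebra (LaurentPolynomial ℤ) H]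

/-- elements all of whose coordinates have degree at most `n` -/
def Dg (b : Module.Basis W (LaurentPolynomial ℤ) H) (n : ℤ) : AddSubgroup H where
  carrier := {x | ∀ z, b.repr x z ∈ dR n}
  zero_mem' := fun z => by simp
  add_mem' := fun {x y} hx hy z => by
    rw [map_add, Finsupp.add_apply]
    exact add_mem (hx z) (hy z)
  neg_mem' := fun {x} hx z => by
    rw [map_neg, Finsupp.neg_apply]
    exact neg_mem (hx z)

theorem Dg_mono {b : Module.Basis W (LaurentPolynomial ℤ) H} {m n : ℤ} (h : m ≤ n) {x : H}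
    (hx : x ∈ Dg b m) : x ∈ Dg b n := fun z => dR_mono h (hx z)

theorem smul_mem_Dg {b : Module.Basis W (LaurentPolynomial ℤ) H} {m n : ℤ}
    {r : LaurentPolynomial ℤ} {x : H} (hr : r ∈ dR m) (hx : x ∈ Dg b n) :
    r • x ∈ Dg b (m + n) := fun z => by
  rw [map_smul, Finsupp.smul_apply, smul_eq_mul]
  exact mul_mem_dR hr (hx z)

theorem basis_mem_Dg (b : Module.Basis W (LaurentPolynomial ℤ) H) (w : W) : b w ∈ Dg b 0 := by
  classical
  intro z
  rw [b.repr_self, Finsupp.single_apply]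
  split_ifs
  · exact T_mem_dR (m := 0) le_rfl
  · exact zero_mem _

theorem map_mem_Dg {b b' : Module.Basis W (LaurentPolynomial ℤ) H} {m n : ℤ}
    (f : H →ₗ[LaurentPolynomial ℤ] H) {x : H} (hx : x ∈ Dg b m)
    (hf : ∀ z, b.repr x z ≠ 0 → f (b z) ∈ Dg b' n) : f x ∈ Dg b' (m + n) := by
  rw [← b.linearCombination_repr x, Finsupp.linearCombination_apply, Finsupp.sum, map_sum]
  refine sum_mem fun z hz => ?_
  rw [map_smul]
  exact smul_mem_Dg (hx z) (hf z (Finsupp.mem_support_iff.1 hz))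

variable {B : Type*} [Group W] {M : CoxeterMatrix B} {cs : CoxeterSystem M W} {L : W → ℕ}
  {Tb : Module.Basis W (LaurentPolynomial ℤ) H}

theorem IsHecke.word (hT : IsHecke cs L Tb) (ω : List B) (hω : cs.IsReduced ω) :
    Tb (cs.wordProd ω) = (ω.map fun i => Tb (cs.simple i)).prod := by
  induction ω using List.reverseRecOn with
  | nil => simpa using hT.1
  | append_singleton ω i ih =>
    have h1 : cs.IsReduced ω := by simpa using hω.take ω.length
    have h2 := hω.eq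
    have h3 := h1.eq
    rw [wordProd_append, wordProd_singleton] at h2 ⊢
    rw [List.length_append, List.length_singleton] at h2
    rw [List.map_append, List.prod_append, ← ih h1, ← (hT.2 _ i).1 (by omega)]
    simp

theorem fold_bound [Fintype B] [DecidableEq B] {A : Matrix B B ℤ} (h : GC M A)
    (hT : IsHecke cs L Tb) (hf : {k | ∃ γ, Root cs h γ ∧ A *ᵥ γ = k}.Finite) {N : ℤ}
    (hN : ∀ i, (L (cs.simple i) : ℤ) ≤ N) (hN0 : 0 ≤ N) (ω : List B) (η : (B → ℤ) →ₗ[ℤ] ℤ)
    (hη : Van A η) (hg : Good A η ω) (x : W) :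
    Tb x * (ω.map fun i => Tb (cs.simple i)).prod ∈ Dg Tb
      ((({k | ∃ γ, Root cs h γ ∧ A *ᵥ γ = k}.ncard : ℤ) - (Pot cs h x η).ncard) * N) := by
  have hle : ∀ x η, ((Pot cs h x η).ncard : ℤ) ≤ {k | ∃ γ, Root cs h γ ∧ A *ᵥ γ = k}.ncard :=
    fun x η => by exact_mod_cast Set.ncard_le_ncard (pot_sub cs h x η) hf
  induction ω generalizing η x with
  | nil =>
    rw [List.map_nil, List.prod_nil, mul_one]
    exact Dg_mono (mul_nonneg (sub_nonneg.2 (hle x η)) hN0) (basis_mem_Dg Tb x)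
  | cons i ω ih =>
    rw [List.map_cons, List.prod_cons, ← mul_assoc]
    have mv : ((Pot cs h x η).ncard : ℤ) ≤ (Pot cs h (x * cs.simple i) (η ∘ₗ sig A i)).ncard := by
      exact_mod_cast pot_move cs h hf x hg.1
    have k1 := Dg_mono (mul_le_mul_of_nonneg_right (sub_le_sub_left mv _) hN0)
      (ih _ (hη.sig i) hg.2 (x * cs.simple i))
    by_cases hx : cs.length x < cs.length (x * cs.simple i)
    · rwa [(hT.2 x i).1 hx]
    · rw [(hT.2 x i).2 hx, add_mul, smul_mul_assoc]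
      refine add_mem k1 ?_
      have hd : cs.length (x * cs.simple i) < cs.length x :=
        lt_of_le_of_ne (not_lt.1 hx) (cs.length_mul_simple_ne x i)
      have fo : ((Pot cs h x η).ncard : ℤ) + 1 ≤ (Pot cs h x (η ∘ₗ sig A i)).ncard := by
        exact_mod_cast pot_fold cs h hf x hη hg.1 (ht_desc cs h x i hd)
      have hr : (T (L (cs.simple i)) - T (-(L (cs.simple i) : ℤ)) : LaurentPolynomial ℤ) ∈ dR N :=
        sub_mem (T_mem_dR (hN i)) (T_mem_dR (by omega))
      refine Dg_mono ?_ (smul_mem_Dg hr (ih _ (hη.sig i) hg.2 x))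
      nlinarith [mul_le_mul_of_nonneg_right fo hN0]

theorem T_bounded [Fintype B] (hM : FinAffType M) (hT : IsHecke cs L Tb) :
    ∃ N : ℕ, ∀ x y, Tb x * Tb y ∈ Dg Tb N := by
  classical
  obtain ⟨A, d, h1, h2, h3, h4, h5⟩ := hM
  have h : GC M A := ⟨h1, h2, fun i j e => by
    have hs : d j * (A j i : ℝ) = d i * (A i j : ℝ) := by simpa using h4.1.apply i j
    rw [e, Int.cast_zero, mul_zero] at hs
    exact_mod_cast (mul_eq_zero.1 hs).resolve_left (h3 j).ne', h5⟩
  have hf := finite_kap cs h h3 h4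
  refine ⟨{k | ∃ γ, Root cs h γ ∧ A *ᵥ γ = k}.ncard * ∑ i, L (cs.simple i), fun x y => ?_⟩
  obtain ⟨ω, hω, rfl⟩ := cs.exists_isReduced y
  have hN : ∀ i, (L (cs.simple i) : ℤ) ≤ (∑ i, L (cs.simple i) : ℕ) := fun i => by
    exact_mod_cast Finset.single_le_sum (f := fun i => L (cs.simple i))
      (fun _ _ => Nat.zero_le _) (Finset.mem_univ i)
  have := fold_bound h hT hf hN (Int.natCast_nonneg _) ω _ (van_red cs h _)
    (good_of_red cs h ω 1 (by simpa using hω.eq)) x
  rw [hT.word ω hω]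
  refine Dg_mono ?_ this
  rw [Nat.cast_mul]
  exact mul_le_mul_of_nonneg_right (by omega) (Int.natCast_nonneg _)

variable {bar : H →+* H} {Cb : Module.Basis W (LaurentPolynomial ℤ) H}

theorem IsKL.diff (hC : IsKL cs Tb bar Cb) (x : W) : Cb x - Tb x ∈ Dg Tb (-1) :=
  fun z k hk => ((hC x).2 z _ rfl).2 k (by omega)

theorem IsKL.C_mem (hC : IsKL cs Tb bar Cb) (x : W) : Cb x ∈ Dg Tb 0 := by
  have := add_mem (Dg_mono (by omega : (-1 : ℤ) ≤ 0) (hC.diff x)) (basis_mem_Dg Tb x)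
  rwa [sub_add_cancel] at this

theorem IsKL.T_mem (hC : IsKL cs Tb bar Cb) (x : W) : Tb x ∈ Dg Cb 0 := by
  induction hn : cs.length x using Nat.strong_induction_on generalizing x with
  | _ n ih =>
  have := map_mem_Dg (b' := Cb) (n := 0) LinearMap.id (hC.diff x) fun z hz =>
    ih _ (hn ▸ ((hC x).2 z _ rfl).1 hz) z rfl
  have := sub_mem (basis_mem_Dg Cb x) (Dg_mono (by omega) this)
  simpa using this

theorem C_bounded [Fintype B] (hM : FinAffType M) (hT : IsHecke cs L Tb)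
    (hC : IsKL cs Tb bar Cb) : ∃ N : ℕ, ∀ x y, Cb x * Cb y ∈ Dg Cb N := by
  obtain ⟨N, hN⟩ := T_bounded hM hT
  refine ⟨N, fun x y => ?_⟩
  have h1 : ∀ u, Tb u * Cb y ∈ Dg Tb (0 + N) := fun u =>
    map_mem_Dg (LinearMap.mulLeft _ (Tb u)) (hC.C_mem y) fun z _ => hN u z
  have h2 : Cb x * Cb y ∈ Dg Tb (0 + (0 + N)) :=
    map_mem_Dg (LinearMap.mulRight _ (Cb y)) (hC.C_mem x) fun z _ => h1 z
  have h3 := map_mem_Dg LinearMap.id h2 fun z _ => hC.T_mem z
  simpa using h3

end Pool.Agent.P.MP_74db7f_al
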