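import Mathlib

namespace Pool.Agent.P.MP_74db7f_al

open LaurentPolynomial

universe u v w

/-- The order of `s_i s_j` attached to the product `A_ij A_ji` of two entries of a generalised
Cartan matrix; the value `0` encodes infinity, as in `CoxeterMatrix`. -/
def coxExp (n : ℤ) : ℕ :=
  if n = 0 then 2 else if n = 1 then 3 else if n = 2 then 4 else if n = 3 then 6 else 0

/-- `M` is the Coxeter matrix of a symmetrisable positive semidefinite generalised Cartan matrix
(every component is of finite or of affine type). -/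
def FinAffType {B : Type w} [Fintype B] (M : CoxeterMatrix B) : Prop :=
  ∃ (A : Matrix B B ℤ) (d : B → ℝ), (∀ i, A i i = 2) ∧ (∀ i j, i ≠ j → A i j ≤ 0) ∧
    (∀ i, 0 < d i) ∧ (Matrix.of fun i j => d i * (A i j : ℝ)).PosSemidef ∧
    ∀ i j, i ≠ j → M i j = coxExp (A i j * A j i)

/-- Positive weight functions. -/
def PosWeight {B : Type w} {W : Type v} [Group W] {M : CoxeterMatrix B} (cs : CoxeterSystem M W)
    (L : W → ℕ) : Prop :=
  (∀ x, x ≠ 1 → 0 < L x) ∧
    ∀ x y, cs.length (x * y) = cs.length x + cs.length y → L (x * y) = L x + L y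

/-- `T` is the standard basis of the Hecke algebra of `(W, S, L)`. -/
def IsHecke {B : Type w} {W : Type v} [Group W] {M : CoxeterMatrix B} (cs : CoxeterSystem M W)
    (L : W → ℕ) {H : Type u} [Ring H] [Algebra (LaurentPolynomial ℤ) H]
    (Tb : Module.Basis W (LaurentPolynomial ℤ) H) : Prop :=
  Tb 1 = 1 ∧ ∀ x i,
    (cs.length x < cs.length (x * cs.simple i) →
      Tb x * Tb (cs.simple i) = Tb (x * cs.simple i)) ∧
    (¬ cs.length x < cs.length (x * cs.simple i) →
      Tb x * Tb (cs.simple i) = Tb (x * cs.simple i) +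
        (T (L (cs.simple i)) - T (-(L (cs.simple i) : ℤ)) : LaurentPolynomial ℤ) • Tb x)

/-- `bar` is the bar involution. -/
def IsBar {W : Type v} [Group W] {H : Type u} [Ring H] [Algebra (LaurentPolynomial ℤ) H]
    (Tb : Module.Basis W (LaurentPolynomial ℤ) H) (bar : H →+* H) : Prop :=
  (∀ (r : LaurentPolynomial ℤ) h, bar (r • h) = invert r • bar h) ∧
    ∀ x, bar (Tb x) * Tb x⁻¹ = 1

/-- `Cb` is the Kazhdan-Lusztig basis. -/
def IsKL {B : Type w} {W : Type v} [Group W] {M : CoxeterMatrix B} (cs : CoxeterSystem M W)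
    {H : Type u} [Ring H] [Algebra (LaurentPolynomial ℤ) H]
    (Tb : Module.Basis W (LaurentPolynomial ℤ) H) (bar : H →+* H)
    (Cb : Module.Basis W (LaurentPolynomial ℤ) H) : Prop :=
  ∀ x, bar (Cb x) = Cb x ∧ ∀ y p, Tb.repr (Cb x - Tb x) y = p →
    (p ≠ 0 → cs.length y < cs.length x) ∧ ∀ k : ℤ, 0 ≤ k → p.coeff k = 0

/-- The two-sided Kazhdan-Lusztig preorder. -/
def LeLR {W : Type v} {H : Type u} [Ring H] [Algebra (LaurentPolynomial ℤ) H]
    (Cb : Module.Basis W (LaurentPolynomial ℤ) H) : W → W → Prop :=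
  Relation.ReflTransGen fun x y => ∃ h h' : H, Cb.repr (h * Cb y * h') x ≠ 0

/-- Two-sided cells. -/
def IsCell {W : Type v} {H : Type u} [Ring H] [Algebra (LaurentPolynomial ℤ) H]
    (Cb : Module.Basis W (LaurentPolynomial ℤ) H) (Γ : Set W) : Prop :=
  ∃ y, Γ = {x | LeLR Cb x y ∧ LeLR Cb y x}

/-- Structures of right `H`-module (`H` an `R`-algebra) on the free `S`-module with basis `ι`. -/
def RightMod (R S : Type) (H : Type u) (ι : Type v) [CommRing R] [CommRing S] [Algebra R S]
    [Ring H] [Algebra R H] : Type (max u v) :=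
  Hᵐᵒᵖ →ₐ[R] Module.End S (ι →₀ S)

/-- The matrix entry `[π(h)]_{a,b}`. -/
noncomputable def RightMod.entry {R S : Type} {H : Type u} {ι : Type v} [CommRing R] [CommRing S]
    [Algebra R S] [Ring H] [Algebra R H] (π : RightMod R S H ι) (h : H) (a b : ι) : S :=
  AlgHom.toRingHom π (MulOpposite.op h) (Finsupp.single a 1) b

/-- A matrix representation: a right `H`-module which is free with basis `ι` over the polynomial
ring in `m` variables over `ℤ[q, q⁻¹]`. -/
structure MatRep (H : Type u) [Ring H] [Algebra (LaurentPolynomial ℤ) H] :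
    Type (max u (v + 1)) where
  m : ℕ
  ι : Type v
  act : RightMod (LaurentPolynomial ℤ) (MvPolynomial (Fin m) (LaurentPolynomial ℤ)) H ι

/-- The coefficient of `ζ ^ α q ^ k` in the matrix entry `[π(h)]_{a,b}`. -/
noncomputable def MatRep.co {H : Type u} [Ring H] [Algebra (LaurentPolynomial ℤ) H]
    (P : MatRep.{u, v} H) (h : H) (k : ℤ) (a b : P.ι) (α : Fin P.m →₀ ℕ) : ℤ :=
  (MvPolynomial.coeff α (P.act.entry h a b)).coeff k

/-- Axioms (B1)-(B4) for the cell `Γ`, the representation `P` and its bound `a`. -/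
def Balanced {W : Type v} {H : Type u} [Ring H] [Algebra (LaurentPolynomial ℤ) H]
    (Cb : Module.Basis W (LaurentPolynomial ℤ) H) (Γ : Set W) (P : MatRep.{u, v} H) (a : ℕ) :
    Prop :=
  (∀ x, (¬ ∃ y ∈ Γ, LeLR Cb y x) → ∀ k, P.co (Cb x) k = 0) ∧
  IsLeast {n : ℕ | ∀ x (k : ℤ), (n : ℤ) < k → P.co (Cb x) k = 0} a ∧
  (∀ x, P.co (Cb x) a ≠ 0 ↔ x ∈ Γ) ∧
  LinearIndependent ℤ fun x : Γ => P.co (Cb x) a

end Pool.Agent.P.MP_74db7f_al
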