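import Pool.Agent.P.MP_74db7f_al.Defs

namespace Pool.Agent.P.MP_74db7f_al

open Matrix

universe w

/-- The simple reflection `v ↦ v - ⟨v, α_j^∨⟩ α_j` on the root lattice `ℤ^B` of the Cartan
matrix `A` (`A i j = ⟨α_j, α_i^∨⟩`). -/
def srefl {B : Type w} [Fintype B] [DecidableEq B] (A : Matrix B B ℤ) (j : B) (v : B → ℤ) :
    B → ℤ :=
  v - (A *ᵥ v) j • Pi.single j 1

/-- `M` is the Coxeter matrix of an extended (affine) Cartan matrix `A`: `A` is a symmetrisable
positive semidefinite generalised Cartan matrix, the nodes in `S0` form a Cartan matrix of finite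
type, every other node `o` has simple root `α_o = δ - θ` with `δ` in the kernel of `A` and `θ` a
root of the finite root system, and every node is connected to such a node `o`. -/
def AffType {B : Type w} [Fintype B] [DecidableEq B] (M : CoxeterMatrix B) : Prop :=
  ∃ (A : Matrix B B ℤ) (d : B → ℝ) (S0 : Finset B), (∀ i, A i i = 2) ∧
    (∀ i j, i ≠ j → A i j ≤ 0) ∧ (∀ i, 0 < d i) ∧
    (Matrix.of fun i j => d i * (A i j : ℝ)).PosSemidef ∧
    (∀ i j, i ≠ j → M i j = coxExp (A i j * A j i)) ∧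
    (∀ v : B → ℤ, (∀ i, i ∉ S0 → v i = 0) → A *ᵥ v = 0 → v = 0) ∧
    (∀ o, o ∉ S0 → ∃ ω : List B, (∀ j ∈ ω, j ∈ S0) ∧ ∃ i ∈ S0,
      A *ᵥ (Pi.single o 1 + ω.foldr (srefl A) (Pi.single i 1)) = 0) ∧
    ∀ i, ∃ o, o ∉ S0 ∧ Relation.ReflTransGen (fun a b => A a b ≠ 0) i o

end Pool.Agent.P.MP_74db7f_al
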