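import Pool.Agent.P.MP_74db7f_al.Roots

namespace Pool.Agent.P.MP_74db7f_al

open Matrix CoxeterSystem

variable {B : Type*} [Fintype B] [DecidableEq B]

/-- height -/
def ht : (B → ℤ) →ₗ[ℤ] ℤ := ∑ i, LinearMap.proj i

omit [DecidableEq B] in
theorem ht_apply (v : B → ℤ) : ht v = ∑ i, v i := by simp [ht]

theorem ht_al (i : B) : ht (al i) = 1 := by simp [ht_apply, al, Pi.single_apply]

omit [DecidableEq B] in
theorem ht_pos {v : B → ℤ} (h0 : 0 ≤ v) (h1 : v ≠ 0) : 0 < ht v := by
  rw [ht_apply]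
  obtain ⟨i, hi⟩ := Function.ne_iff.1 h1
  exact Finset.sum_pos' (fun j _ => h0 j) ⟨i, Finset.mem_univ _, lt_of_le_of_ne (h0 i) hi.symm⟩

variable {W : Type*} [Group W] {M : CoxeterMatrix B} (cs : CoxeterSystem M W)
  {A : Matrix B B ℤ} (h : GC M A)

include h in
theorem sig_al (i : B) : sig A i (al i) = -al i := by
  rw [sig_apply, mulVec_al, h.diag]
  module

theorem phi_mul_simple (x : W) (i : B) (v : B → ℤ) :
    phi cs h (x * cs.simple i) v = phi cs h x (sig A i v) := by
  rw [map_mul, Module.End.mul_apply, phi_simple]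

include cs h in
theorem sig_sig (i : B) (v : B → ℤ) : sig A i (sig A i v) = v := by
  rw [← phi_simple cs h, ← Module.End.mul_apply, ← map_mul, simple_mul_simple_self, map_one,
    Module.End.one_apply]

theorem neg_of_desc (x : W) (i : B) (hx : cs.length (x * cs.simple i) < cs.length x) :
    phi cs h x (al i) ≤ 0 := by
  have := pos_of_asc cs h (x * cs.simple i) i (by simpa using hx)
  rw [phi_mul_simple, sig_al h, map_neg] at this
  exact neg_nonneg.1 this

theorem phi_al_ne (x : W) (i : B) : phi cs h x (al i) ≠ 0 := by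
  intro h0
  have : phi cs h x⁻¹ (phi cs h x (al i)) = al i := by
    rw [← Module.End.mul_apply, ← map_mul, inv_mul_cancel, map_one, Module.End.one_apply]
  rw [h0, map_zero] at this
  have := congrArg ht this
  rw [ht_al, map_zero] at this
  exact zero_ne_one this

theorem ht_asc (x : W) (i : B) (hx : cs.length x < cs.length (x * cs.simple i)) :
    0 < ht (phi cs h x (al i)) :=
  ht_pos (pos_of_asc cs h x i hx) (phi_al_ne cs h x i)

theorem ht_desc (x : W) (i : B) (hx : cs.length (x * cs.simple i) < cs.length x) :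
    ht (phi cs h x (al i)) < 0 := by
  have := ht_pos (neg_nonneg.2 (neg_of_desc cs h x i hx)) (neg_ne_zero.2 (phi_al_ne cs h x i))
  rw [map_neg] at this
  omega

/-- real roots -/
def Root (γ : B → ℤ) : Prop := ∃ x i, γ = phi cs h x (al i)

theorem Root.sign {γ : B → ℤ} (hγ : Root cs h γ) :
    (0 ≤ γ ∧ 0 < ht γ) ∨ (γ ≤ 0 ∧ ht γ < 0) := by
  obtain ⟨x, i, rfl⟩ := hγ
  rcases cs.length_mul_simple x i with h1 | h1
  · exact Or.inl ⟨pos_of_asc cs h x i (by omega), ht_asc cs h x i (by omega)⟩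
  · exact Or.inr ⟨neg_of_desc cs h x i (by omega), ht_desc cs h x i (by omega)⟩

theorem Root.sig {γ : B → ℤ} (hγ : Root cs h γ) (i : B) : Root cs h (sig A i γ) := by
  obtain ⟨x, j, rfl⟩ := hγ
  exact ⟨cs.simple i * x, j, by rw [map_mul, Module.End.mul_apply, phi_simple]⟩

theorem root_al (i : B) : Root cs h (al i) := ⟨1, i, by simp⟩

theorem phi_ker (x : W) {v : B → ℤ} (hv : A *ᵥ v = 0) : phi cs h x v = v := by
  induction x using cs.simple_induction_right with
  | one => simp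
  | mul_simple_right w i ih => rw [phi_mul_simple, sig_apply, hv]; simpa using ih

theorem Root.sig_pos {γ : B → ℤ} (hγ : Root cs h γ) (h0 : 0 < ht γ) (i : B) :
    0 < ht (Pool.Agent.P.MP_74db7f_al.sig A i γ) ∨ ∃ c : ℤ, 0 < c ∧ γ = c • al i := by
  rcases (hγ.sig cs h i).sign with h1 | h1
  · exact Or.inl h1.2
  right
  have h2 : 0 ≤ γ := by
    rcases hγ.sign with h2 | h2
    · exact h2.1
    · omega
  have h3 : γ = γ i • al i := by
    funext k
    by_cases hk : k = i
    · subst hk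
      simp [al]
    · have h4 := h1.1 k
      have h5 := h2 k
      rw [sig_apply] at h4
      simp [al, hk] at h4 h5 ⊢
      omega
  refine ⟨γ i, ?_, h3⟩
  rw [h3, map_smul, ht_al] at h0
  simpa using h0

/-- the invariant form -/
def bf (A : Matrix B B ℤ) (d : B → ℝ) (u v : B → ℤ) : ℝ := ∑ i, d i * u i * ((A *ᵥ v) i : ℤ)

omit [DecidableEq B] in
theorem bf_eq (A : Matrix B B ℤ) (d : B → ℝ) (u v : B → ℤ) :
    bf A d u v = (fun i => (u i : ℝ)) ⬝ᵥ
      ((Matrix.of fun i j => d i * (A i j : ℝ)) *ᵥ fun i => (v i : ℝ)) := by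
  simp only [bf, dotProduct, mulVec, Matrix.of_apply, Int.cast_sum, Int.cast_mul, Finset.mul_sum]
  refine Finset.sum_congr rfl fun i _ => Finset.sum_congr rfl fun j _ => by ring

theorem bf_expand {d : B → ℝ} (hd : (Matrix.of fun i j => d i * (A i j : ℝ)).PosSemidef)
    (hA : ∀ i, A i i = 2) (v : B → ℤ) (j : B) (t : ℤ) :
    bf A d (v + t • al j) (v + t • al j) =
      bf A d v v + 2 * t * d j * ((A *ᵥ v) j : ℤ) + 2 * t ^ 2 * d j := by
  have hs : ∀ a b, d a * (A a b : ℝ) = d b * (A b a : ℝ) := fun a b => by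
    simpa using hd.1.apply b a
  have h1 : ∑ i, d i * (v i : ℝ) * (A i j : ℝ) = d j * ((A *ᵥ v) j : ℤ) := by
    simp only [dotProduct, mulVec, Int.cast_sum, Int.cast_mul, Finset.mul_sum]
    refine Finset.sum_congr rfl fun i _ => ?_
    rw [mul_right_comm, hs]
    ring
  have h2 : ∀ f : B → ℝ, ∑ i, f i * ((al j i : ℤ) : ℝ) = f j := fun f => by
    simp [al, Pi.single_apply]
  have h3 : ∀ i, d i * ((v + t • al j) i : ℤ) * ((A *ᵥ (v + t • al j)) i : ℤ) =
      d i * v i * ((A *ᵥ v) i : ℤ) + t * (d i * (v i : ℝ) * (A i j : ℝ)) +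
        (t * d i * ((A *ᵥ v) i : ℤ) + t ^ 2 * d i * (A i j : ℝ)) * ((al j i : ℤ) : ℝ) := by
    intro i
    rw [mulVec_add, mulVec_smul]
    simp only [Pi.add_apply, Pi.smul_apply, mulVec_al, smul_eq_mul, Int.cast_add, Int.cast_mul]
    ring
  simp only [bf, h3, Finset.sum_add_distrib, ← Finset.mul_sum, h1, h2, hA]
  push_cast
  ring

theorem finite_kap {d : B → ℝ} (hd0 : ∀ i, 0 < d i)
    (hd : (Matrix.of fun i j => d i * (A i j : ℝ)).PosSemidef) :
    {k | ∃ γ, Root cs h γ ∧ A *ᵥ γ = k}.Finite := by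
  have hq : ∀ x i, bf A d (phi cs h x (al i)) (phi cs h x (al i)) = 2 * d i := by
    intro x i
    induction x using cs.simple_induction_left with
    | one =>
      have := bf_expand hd h.diag 0 i 1
      simpa [bf] using this
    | mul_simple_left w j ih =>
      rw [map_mul, Module.End.mul_apply, phi_simple, sig_apply, sub_eq_add_neg, ← neg_smul,
        bf_expand hd h.diag, ih]
      push_cast
      ring
  have hn : ∀ v, 0 ≤ bf A d v v := fun v => by
    rw [bf_eq]
    simpa using hd.dotProduct_mulVec_nonneg fun i => (v i : ℝ)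
  obtain ⟨N, hN⟩ := exists_nat_ge (∑ i, ∑ j, (d i + d j) / d j)
  have hN' : ∀ i j, d i + d j ≤ N * d j := by
    intro i j
    rw [← div_le_iff₀ (hd0 j)]
    refine le_trans ?_ hN
    have p : ∀ a b, 0 ≤ (d a + d b) / d b := fun a b => by
      have := hd0 a
      have := hd0 b
      positivity
    exact (Finset.single_le_sum (f := fun b => (d i + d b) / d b) (fun b _ => p i b)
      (Finset.mem_univ j)).trans (Finset.single_le_sum (f := fun a => ∑ b, (d a + d b) / d b)
        (fun a _ => Finset.sum_nonneg fun b _ => p a b) (Finset.mem_univ i))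
  refine (Set.finite_Icc (fun _ : B => -(N : ℤ)) fun _ => (N : ℤ)).subset ?_
  rintro _ ⟨_, ⟨x, i, rfl⟩, rfl⟩
  have k1 := fun j => hn (phi cs h x (al i) + (1 : ℤ) • al j)
  have k2 := fun j => hn (phi cs h x (al i) + (-1 : ℤ) • al j)
  simp only [bf_expand hd h.diag, hq] at k1 k2
  constructor
  · intro j
    have : (-(N : ℝ)) * d j ≤ ((A *ᵥ phi cs h x (al i)) j : ℤ) * d j := by
      have := k1 j
      have := hN' i j
      push_cast at *
      nlinarith
    have := le_of_mul_le_mul_right this (hd0 j)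
    exact_mod_cast this
  · intro j
    have : ((A *ᵥ phi cs h x (al i)) j : ℤ) * d j ≤ (N : ℝ) * d j := by
      have := k2 j
      have := hN' i j
      push_cast at *
      nlinarith
    have := le_of_mul_le_mul_right this (hd0 j)
    exact_mod_cast this

/-- functionals vanishing on the radical -/
def Van (A : Matrix B B ℤ) (η : (B → ℤ) →ₗ[ℤ] ℤ) : Prop := ∀ v, A *ᵥ v = 0 → η v = 0

omit [DecidableEq B] in
theorem Van.eq {η : (B → ℤ) →ₗ[ℤ] ℤ} (hη : Van A η) {u v : B → ℤ} (e : A *ᵥ u = A *ᵥ v) :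
    η u = η v := by
  have := hη (u - v) (by rw [mulVec_sub, e, sub_self])
  rw [map_sub] at this
  omega

theorem Van.sig {η : (B → ℤ) →ₗ[ℤ] ℤ} (hη : Van A η) (i : B) : Van A (η ∘ₗ sig A i) := by
  intro v hv
  rw [LinearMap.comp_apply, sig_apply, hv]
  simpa using hη v hv

/-- reflection on pairing vectors -/
def sb (A : Matrix B B ℤ) (i : B) (k : B → ℤ) : B → ℤ := k - k i • A *ᵥ al i

theorem kap_sig (i : B) (v : B → ℤ) : A *ᵥ sig A i v = sb A i (A *ᵥ v) := by
  rw [sig_apply, mulVec_sub, mulVec_smul, sb]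

include h in
theorem sb_sb (i : B) (k : B → ℤ) : sb A i (sb A i k) = k := by
  simp only [sb, Pi.sub_apply, Pi.smul_apply, mulVec_al, h.diag, smul_eq_mul]
  module

/-- the potential -/
def Pot (x : W) (η : (B → ℤ) →ₗ[ℤ] ℤ) : Set (B → ℤ) :=
  {k | ∃ γ, Root cs h γ ∧ 0 < ht γ ∧ ht (phi cs h x γ) < 0 ∧ 0 < η γ ∧ A *ᵥ γ = k}

theorem pot_sub (x : W) (η : (B → ℤ) →ₗ[ℤ] ℤ) :
    Pot cs h x η ⊆ {k | ∃ γ, Root cs h γ ∧ A *ᵥ γ = k} :=
  fun _ ⟨γ, h1, _, _, _, h2⟩ => ⟨γ, h1, h2⟩

theorem pot_move (hf : {k | ∃ γ, Root cs h γ ∧ A *ᵥ γ = k}.Finite) (x : W)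
    {η : (B → ℤ) →ₗ[ℤ] ℤ} {i : B} (hi : η (al i) < 0) :
    (Pot cs h x η).ncard ≤ (Pot cs h (x * cs.simple i) (η ∘ₗ sig A i)).ncard := by
  refine Set.ncard_le_ncard_of_injOn (sb A i) ?_
    (Function.LeftInverse.injective (sb_sb h i)).injOn (hf.subset (pot_sub cs h _ _))
  rintro _ ⟨γ, h1, h2, h3, h4, rfl⟩
  refine ⟨sig A i γ, h1.sig cs h i, ?_, ?_, ?_, kap_sig i γ⟩
  · rcases h1.sig_pos cs h h2 i with h5 | ⟨c, hc, rfl⟩
    · exact h5
    · rw [map_smul, smul_eq_mul] at h4
      nlinarith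
  · rwa [phi_mul_simple, sig_sig cs h]
  · rwa [LinearMap.comp_apply, sig_sig cs h]

theorem pot_fold (hf : {k | ∃ γ, Root cs h γ ∧ A *ᵥ γ = k}.Finite) (x : W)
    {η : (B → ℤ) →ₗ[ℤ] ℤ} (hη : Van A η) {i : B} (hi : η (al i) < 0)
    (hx : ht (phi cs h x (al i)) < 0) :
    (Pot cs h x η).ncard + 1 ≤ (Pot cs h x (η ∘ₗ sig A i)).ncard := by
  classical
  have hfin := hf.subset (pot_sub cs h x (η ∘ₗ sig A i))
  have hmem : A *ᵥ al i ∈ Pot cs h x (η ∘ₗ sig A i) :=
    ⟨al i, root_al cs h i, by rw [ht_al]; exact one_pos, hx,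
      by rw [LinearMap.comp_apply, sig_al h, map_neg]; omega, rfl⟩
  rw [← Set.ncard_sdiff_singleton_add_one hmem hfin]
  have hc : ∀ γ, (∃ δ, A *ᵥ δ = A *ᵥ γ ∧ 0 < η (sig A i δ)) ↔ 0 < η (sig A i γ) := by
    intro γ
    refine ⟨fun ⟨δ, e, hδ⟩ => ?_, fun h0 => ⟨γ, rfl, h0⟩⟩
    have := (hη.sig i).eq e
    simp only [LinearMap.comp_apply] at this
    omega
  refine Nat.add_le_add_right (Set.ncard_le_ncard_of_injOn
    (fun k => if ∃ δ, A *ᵥ δ = k ∧ 0 < η (sig A i δ) then k else sb A i k) ?_ ?_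
    (hfin.subset Set.sdiff_subset)) 1
  · rintro _ ⟨γ, h1, h2, h3, h4, rfl⟩
    simp only [hc]
    split_ifs with h5
    · refine ⟨⟨γ, h1, h2, h3, h5, rfl⟩, fun e => ?_⟩
      have := hη.eq (Set.mem_singleton_iff.1 e)
      omega
    · have h6 : (A *ᵥ γ) i < 0 := by
        rw [sig_apply, map_sub, map_smul, smul_eq_mul] at h5
        nlinarith
      refine ⟨⟨sig A i γ, h1.sig cs h i, ?_, ?_, ?_, kap_sig i γ⟩, fun e => ?_⟩
      · rw [sig_apply, map_sub, map_smul, ht_al, smul_eq_mul]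
        omega
      · rw [sig_apply, map_sub, map_smul, map_sub, map_smul, smul_eq_mul]
        nlinarith
      · rwa [LinearMap.comp_apply, sig_sig cs h]
      · have e1 : A *ᵥ (γ + al i) = 0 := by
          have e2 := congrArg (sb A i) (Set.mem_singleton_iff.1 e)
          rw [sb_sb h, ← kap_sig, sig_al h, mulVec_neg] at e2
          rw [mulVec_add, e2, neg_add_cancel]
        have e3 := congrArg ht (phi_ker cs h x e1)
        rw [map_add, map_add, map_add, ht_al] at e3
        omega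
  · rintro _ ⟨γ, h1, h2, h3, h4, rfl⟩ _ ⟨δ, g1, g2, g3, g4, rfl⟩ e
    simp only [hc] at e
    split_ifs at e with h5 g5 g5
    · exact e
    · rw [← kap_sig] at e
      have := hη.eq e
      omega
    · rw [← kap_sig] at e
      have := hη.eq e
      omega
    · exact Function.LeftInverse.injective (sb_sb h i) e

/-- all walls are crossed in the same direction -/
def Good (A : Matrix B B ℤ) : ((B → ℤ) →ₗ[ℤ] ℤ) → List B → Prop
  | _, [] => True
  | η, i :: ω => η (al i) < 0 ∧ Good A (η ∘ₗ sig A i) ω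

theorem good_of_red (ω : List B) (u : W)
    (hu : cs.length (u * cs.wordProd ω) = cs.length u + ω.length) :
    Good A (ht ∘ₗ phi cs h (cs.wordProd ω)⁻¹ - ht ∘ₗ phi cs h u) ω := by
  induction ω generalizing u with
  | nil => trivial
  | cons i ω ih =>
    have h1 := cs.length_wordProd_le ω
    have h2 := cs.length_mul_le u (cs.wordProd (i :: ω))
    have h3 := cs.length_mul_le (u * cs.simple i) (cs.wordProd ω)
    have h4 := cs.length_mul_simple u i
    have e : (cs.wordProd (i :: ω))⁻¹ * cs.simple i = (cs.wordProd ω)⁻¹ := by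
      simp [wordProd_cons]
    rw [List.length_cons] at hu
    have hu' := hu
    rw [wordProd_cons, ← mul_assoc] at hu'
    refine ⟨?_, ?_⟩
    · have a1 := ht_asc cs h u i (by omega)
      have a2 := ht_desc cs h (cs.wordProd (i :: ω))⁻¹ i (by
        rw [e, length_inv, length_inv]; omega)
      simp only [LinearMap.sub_apply, LinearMap.comp_apply]
      omega
    · convert ih (u * cs.simple i) (by omega) using 1
      refine LinearMap.ext fun v => ?_
      simp only [LinearMap.sub_apply, LinearMap.comp_apply, ← phi_mul_simple, e]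

theorem van_red (y : W) : Van A (ht ∘ₗ phi cs h y - ht ∘ₗ phi cs h 1) := by
  intro v hv
  simp only [LinearMap.sub_apply, LinearMap.comp_apply, phi_ker cs h _ hv, sub_self]

end Pool.Agent.P.MP_74db7f_al
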