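import Pool.Agent.P.MP_74db7f_al.Bound

namespace Pool.Agent.P.MP_74db7f_al

open CoxeterSystem LaurentPolynomial MulOpposite

theorem exists_act {R S H W : Type*} [CommRing R] [CommRing S] [Algebra R S] [Ring H]
    [Algebra R H] (D : Module.Basis W R H) (s : Set W)
    (hs : ∀ y ∉ s, ∀ h, ∀ z ∈ s, D.repr (D y * h) z = 0) :
    ∃ act : Hᵐᵒᵖ →ₐ[R] Module.End S (s →₀ S), ∀ h (a b : s),
      act (op h) (Finsupp.single a 1) b = algebraMap R S (D.repr (D a * h) b) := by
  classical
  let pr : H →ₗ[R] (s →₀ S) := Finsupp.mapRange.linearMap (Algebra.linearMap R S) ∘ₗ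
    Finsupp.lsubtypeDomain s ∘ₗ D.repr.toLinearMap
  have pr_apply : ∀ x (b : s), pr x b = algebraMap R S (D.repr x b) := fun x b => by
    simp [pr, Finsupp.lsubtypeDomain_apply]
  have pr_D : ∀ a : s, pr (D a) = Finsupp.single a 1 := fun a => by
    ext b
    rw [pr_apply, D.repr_self, Finsupp.single_apply, Finsupp.single_apply]
    by_cases e : a = b
    · simp [e]
    · rw [if_neg e, if_neg (fun e' => e (Subtype.ext e')), map_zero]
  let f : H → Module.End S (s →₀ S) := fun h =>
    Finsupp.linearCombination S fun a : s => pr (D a * h)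
  have f_single : ∀ h a, f h (Finsupp.single a 1) = pr (D a * h) := fun h a => by simp [f]
  have key : ∀ h x, f h (pr x) = pr (x * h) := by
    intro h x
    have : (f h).restrictScalars R ∘ₗ pr = pr ∘ₗ LinearMap.mulRight R h := by
      refine D.ext fun y => ?_
      simp only [LinearMap.comp_apply, LinearMap.restrictScalars_apply, LinearMap.mulRight_apply]
      by_cases hy : y ∈ s
      · exact (congrArg (f h) (pr_D ⟨y, hy⟩)).trans (f_single h ⟨y, hy⟩)
      · have e1 : pr (D y) = 0 := by
          ext b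
          have := hs y hy 1 b b.2
          rw [mul_one] at this
          rw [pr_apply, this, map_zero, Finsupp.zero_apply]
        rw [e1, map_zero]
        ext b
        rw [pr_apply, hs y hy h b b.2, map_zero, Finsupp.zero_apply]
    exact LinearMap.congr_fun this x
  have ext1 : ∀ g g' : Module.End S (s →₀ S),
      (∀ a, g (Finsupp.single a 1) = g' (Finsupp.single a 1)) → g = g' := fun g g' e =>
    Finsupp.lhom_ext' fun a => LinearMap.ext_ring (e a)
  refine ⟨⟨⟨⟨⟨fun x => f x.unop, ?_⟩, ?_⟩, ?_, ?_⟩, ?_⟩, fun h a b => ?_⟩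
  · refine ext1 _ _ fun a => ?_
    rw [f_single, unop_one, mul_one, pr_D, Module.End.one_apply]
  · intro x y
    refine ext1 _ _ fun a => ?_
    simp only [Module.End.mul_apply, f_single, unop_mul, key, mul_assoc]
  · refine ext1 _ _ fun a => ?_
    simp only [f_single, unop_zero, mul_zero, map_zero, LinearMap.zero_apply]
  · intro x y
    refine ext1 _ _ fun a => ?_
    simp only [f_single, unop_add, mul_add, map_add, LinearMap.add_apply]
  · intro r
    refine ext1 _ _ fun a => ?_
    simp only [f_single, MulOpposite.algebraMap_apply, unop_op, Module.algebraMap_end_apply]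
    rw [← Algebra.commutes, ← Algebra.smul_def, map_smul, pr_D]
  · exact (congrFun (congrArg DFunLike.coe (f_single h a)) b).trans (pr_apply _ _)

variable {W : Type*} {H : Type*} [Ring H] [Algebra (LaurentPolynomial ℤ) H]
  {B : Type*} [Group W] {M : CoxeterMatrix B} {cs : CoxeterSystem M W} {L : W → ℕ}
  {Tb : Module.Basis W (LaurentPolynomial ℤ) H} {bar : H →+* H}
  {Cb : Module.Basis W (LaurentPolynomial ℤ) H}

theorem len_induction (cs : CoxeterSystem M W) {p : W → Prop} (h1 : p 1)
    (h2 : ∀ x i, cs.length (x * cs.simple i) = cs.length x + 1 → p x → p (x * cs.simple i))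
    (x : W) : p x := by
  induction hn : cs.length x using Nat.strong_induction_on generalizing x with
  | _ n ih =>
  by_cases hx : x = 1
  · exact hx ▸ h1
  obtain ⟨i, hi⟩ := cs.exists_rightDescent_of_ne_one hx
  have hi' := cs.isRightDescent_iff.1 hi
  have := h2 (x * cs.simple i) i (by simpa using hi'.symm) (ih _ (by omega) _ rfl)
  simpa using this

theorem PosWeight.one (hL : PosWeight cs L) : L 1 = 0 := by
  have := hL.2 1 1 (by simp)
  rw [mul_one] at this
  omega

theorem PosWeight.inv (hL : PosWeight cs L) (x : W) : L x⁻¹ = L x := by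
  induction x using len_induction cs with
  | h1 => rw [inv_one]
  | h2 x i hx ih =>
    rw [hL.2 x _ (by simpa using hx), mul_inv_rev, inv_simple, hL.2, ih, add_comm]
    rw [← cs.length_inv, mul_inv_rev, inv_inv, inv_simple, hx, length_simple, length_inv, add_comm]

/-- the sign character -/
noncomputable def chi (cs : CoxeterSystem M W) (L : W → ℕ)
    (Tb : Module.Basis W (LaurentPolynomial ℤ) H) :
    H →ₗ[LaurentPolynomial ℤ] LaurentPolynomial ℤ :=
  Tb.constr (LaurentPolynomial ℤ) fun x => (-1) ^ cs.length x * T (-(L x : ℤ))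

theorem chi_T (x : W) : chi cs L Tb (Tb x) = (-1) ^ cs.length x * T (-(L x : ℤ)) :=
  Tb.constr_basis _ _ x

theorem chi_mul (hL : PosWeight cs L) (hT : IsHecke cs L Tb) (x y : H) :
    chi cs L Tb (x * y) = chi cs L Tb x * chi cs L Tb y := by
  have lin : ∀ y : H, (∀ w, chi cs L Tb (Tb w * y) = chi cs L Tb (Tb w) * chi cs L Tb y) →
      ∀ x, chi cs L Tb (x * y) = chi cs L Tb x * chi cs L Tb y := by
    intro y hy x
    have : chi cs L Tb ∘ₗ LinearMap.mulRight _ y =
        LinearMap.mulRight _ (chi cs L Tb y) ∘ₗ chi cs L Tb := Tb.ext fun w => hy w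
    exact LinearMap.congr_fun this x
  have s1 : ∀ i x, chi cs L Tb (x * Tb (cs.simple i)) =
      chi cs L Tb x * chi cs L Tb (Tb (cs.simple i)) := by
    intro i
    refine lin _ fun w => ?_
    rcases cs.length_mul_simple w i with h | h
    · rw [(hT.2 w i).1 (by omega), chi_T, chi_T, chi_T, h, hL.2 w _ (by simpa using h),
        length_simple, Nat.cast_add, neg_add, T_add]
      ring
    · have e : L w = L (w * cs.simple i) + L (cs.simple i) := by
        rw [← hL.2 _ _ (by simpa using h.symm)]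
        simp
      have e2 : (T (L (cs.simple i)) : LaurentPolynomial ℤ) * T (-(L (cs.simple i) : ℤ)) = 1 := by
        rw [← T_add, add_neg_cancel, T_zero]
      rw [(hT.2 w i).2 (by omega), map_add, map_smul, chi_T, chi_T, chi_T, ← h, e, length_simple,
        Nat.cast_add, neg_add, T_add, smul_eq_mul]
      linear_combination (-(-1) ^ cs.length (w * cs.simple i) *
        T (-(L (w * cs.simple i) : ℤ))) * e2
  have s2 : ∀ w x, chi cs L Tb (x * Tb w) = chi cs L Tb x * chi cs L Tb (Tb w) := by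
    intro w
    induction w using len_induction cs with
    | h1 => intro x; rw [chi_T, hT.1, hL.one]; simp
    | h2 w i hw ih =>
      intro x
      rw [← (hT.2 w i).1 (by omega), ← mul_assoc, s1, s1, ih, mul_assoc]
  have : chi cs L Tb ∘ₗ LinearMap.mulLeft _ x =
      LinearMap.mulLeft _ (chi cs L Tb x) ∘ₗ chi cs L Tb := Tb.ext fun w => s2 w x
  exact LinearMap.congr_fun this y

theorem chi_one (hL : PosWeight cs L) (hT : IsHecke cs L Tb) : chi cs L Tb 1 = 1 := by
  rw [← hT.1, chi_T, hL.one]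
  simp

theorem chi_bar (hL : PosWeight cs L) (hT : IsHecke cs L Tb) (hB : IsBar Tb bar) (x : H) :
    chi cs L Tb (bar x) = invert (chi cs L Tb x) := by
  have hb : ∀ w, chi cs L Tb (bar (Tb w)) = invert (chi cs L Tb (Tb w)) := by
    intro w
    have e := congrArg (chi cs L Tb) (hB.2 w)
    rw [chi_mul hL hT, chi_one hL hT, chi_T, length_inv, hL.inv] at e
    have e2 : (T (L w) : LaurentPolynomial ℤ) * T (-(L w : ℤ)) = 1 := by
      rw [← T_add, add_neg_cancel, T_zero]
    have e3 : ((-1 : LaurentPolynomial ℤ) ^ cs.length w) * (-1) ^ cs.length w = 1 := by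
      rw [← mul_pow]; simp
    rw [chi_T, map_mul, map_pow, map_neg, map_one, invert_T, neg_neg]
    linear_combination ((-1) ^ cs.length w * T (L w)) * e -
      chi cs L Tb (bar (Tb w)) * (T (L w) * T (-(L w : ℤ))) * e3 - chi cs L Tb (bar (Tb w)) * e2
  rw [← Tb.linearCombination_repr x, Finsupp.linearCombination_apply, Finsupp.sum]
  simp only [map_sum, hB.1, map_smul, hb, smul_eq_mul, map_mul]

theorem IsKL.one (hT : IsHecke cs L Tb) (hC : IsKL cs Tb bar Cb) : Cb 1 = 1 := by
  have : Tb.repr (Cb 1 - Tb 1) = 0 := by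
    ext y : 1
    by_contra h
    simpa using ((hC 1).2 y _ rfl).1 h
  rw [← hT.1, ← sub_eq_zero]
  exact Tb.repr.map_eq_zero_iff.1 this

theorem chi_C (hL : PosWeight cs L) (hT : IsHecke cs L Tb) (hB : IsBar Tb bar)
    (hC : IsKL cs Tb bar Cb) {x : W}
    (hx : x ≠ 1) : chi cs L Tb (Cb x) = 0 := by
  have p : ∀ w, chi cs L Tb (Tb w) ∈ dR (-(L w : ℤ)) := by
    intro w
    rw [chi_T]
    rcases neg_one_pow_eq_or (LaurentPolynomial ℤ) (cs.length w) with h | h <;> rw [h]
    · simpa using T_mem_dR le_rfl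
    · simpa using T_mem_dR le_rfl
  have h1 : chi cs L Tb (Cb x - Tb x) ∈ dR (-1) := by
    rw [← Tb.linearCombination_repr (Cb x - Tb x), Finsupp.linearCombination_apply, Finsupp.sum,
      map_sum]
    refine sum_mem fun z _ => ?_
    rw [map_smul, smul_eq_mul]
    exact dR_mono (by omega) (mul_mem_dR (hC.diff x z) (p z))
  have h2 : chi cs L Tb (Cb x) ∈ dR (-1) := by
    have := hL.1 x hx
    simpa using add_mem h1 (dR_mono (by omega) (p x))
  have h3 := chi_bar hL hT hB (Cb x)
  rw [(hC x).1] at h3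
  ext k
  by_cases hk : -1 < k
  · exact h2 k hk
  · rw [h3, invert_apply]
    exact h2 _ (by omega)

theorem eq_one_of_le (hL : PosWeight cs L) (hT : IsHecke cs L Tb) (hB : IsBar Tb bar)
    (hC : IsKL cs Tb bar Cb)
    {y : W} (hy : LeLR Cb 1 y) : y = 1 := by
  have e : ∀ x, Cb.repr x 1 = chi cs L Tb x := by
    intro x
    have : Cb.coord 1 = chi cs L Tb := Cb.ext fun w => by
      by_cases hw : w = 1
      · rw [hw, Module.Basis.coord_apply, Cb.repr_self, hC.one hT, chi_one hL hT]
        simp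
      · rw [chi_C hL hT hB hC hw]
        simp [hw]
    exact LinearMap.congr_fun this x
  induction hy with
  | refl => rfl
  | tail _ h ih =>
    obtain ⟨h1, h2, h3⟩ := h
    by_contra hc
    rw [ih, e, chi_mul hL hT, chi_mul hL hT, chi_C hL hT hB hC hc] at h3
    simp at h3

theorem le_one (hT : IsHecke cs L Tb) (hC : IsKL cs Tb bar Cb) (x : W) : LeLR Cb x 1 :=
  Relation.ReflTransGen.single ⟨Cb x, 1, by simp [hC.one hT]⟩

theorem balanced (hL : PosWeight cs L) (hT : IsHecke cs L Tb) (hB : IsBar Tb bar)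
    (hC : IsKL cs Tb bar Cb) {N : ℕ}
    (hN : ∀ x y, Cb x * Cb y ∈ Dg Cb N) {Γ : Set W} (hΓ : IsCell Cb Γ) (n : ℕ)
    (hn : (1 ∈ Γ ∧ n = 0) ∨ (1 ∉ Γ ∧ n = N + 2)) : ∃ P : MatRep H, Balanced Cb Γ P n := by
  classical
  obtain ⟨y0, hy0⟩ := hΓ
  have mem : ∀ x, x ∈ Γ ↔ LeLR Cb x y0 ∧ LeLR Cb y0 x := fun x => by rw [hy0]; rfl
  have h0 : y0 ∈ Γ := (mem _).2 ⟨.refl, .refl⟩
  let s : Set W := {x | LeLR Cb y0 x}
  let d : W → ℕ := fun x => if x = 1 then n else if x ∈ Γ then 0 else 1
  let D := Cb.unitsSMul fun x => unitOfInvertible (T (d x) : LaurentPolynomial ℤ)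
  have hD : ∀ a b h, D.repr (D a * h) b = T ((d a : ℤ) - d b) * Cb.repr (Cb a * h) b := by
    intro a b h
    rw [Module.Basis.repr_unitsSMul, Module.Basis.unitsSMul_apply, Units.smul_def, Units.smul_def,
      smul_mul_assoc, map_smul, Finsupp.smul_apply, smul_eq_mul, smul_eq_mul, ← mul_assoc,
      sub_eq_neg_add, T_add]
    rfl
  obtain ⟨act, hact⟩ := exists_act (S := MvPolynomial (Fin 0) (LaurentPolynomial ℤ)) D s (by
    intro y hy h z hz
    rw [hD]
    by_contra hc
    exact hy (Relation.ReflTransGen.tail hz ⟨1, h, by simpa using right_ne_zero_of_mul hc⟩))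
  let P : MatRep H := ⟨0, s, act⟩
  have hco : ∀ x k (a b : s) α, P.co (Cb x) k a b α =
      (Cb.repr (Cb a * Cb x) b).coeff (k - ((d a : ℤ) - d b)) := by
    intro x k a b α
    obtain rfl : α = 0 := Subsingleton.elim _ _
    change (MvPolynomial.coeff 0 (act (op (Cb x)) (Finsupp.single a 1) b)).coeff k = _
    rw [hact, MvPolynomial.algebraMap_eq, MvPolynomial.coeff_zero_C, hD, coeff_T_mul]
  have d0 : ∀ x, d x = 0 ↔ x ∈ Γ := by
    intro x
    by_cases hx : x = 1
    · subst hx
      rcases hn with ⟨h1, h2⟩ | ⟨h1, h2⟩ <;> simp [d, h1, h2]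
    · by_cases hx' : x ∈ Γ <;> simp [d, hx, hx']
  have hs1 : (1 : W) ∈ s := le_one hT hC y0
  have top : ∀ x (k : ℤ) (a b : s) α, (n : ℤ) ≤ k → P.co (Cb x) k a b α =
      if a.1 = 1 ∧ x = b.1 ∧ x ∈ Γ ∧ k = n then 1 else 0 := by
    intro x k a b α hk
    rw [hco]
    by_cases ha : a.1 = 1
    · have da : d a = n := by simp [d, ha]
      rw [da, ha, hC.one hT, one_mul, Cb.repr_self, Finsupp.single_apply]
      by_cases hb : x = b.1
      · rw [if_pos hb, ← T_zero, T_apply, ← hb]
        simp only [true_and, ← d0]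
        exact if_congr (by omega) rfl rfl
      · simp [hb]
    · rw [if_neg (fun h => ha h.1)]
      rcases hn with ⟨h1, h2⟩ | ⟨h1, h2⟩
      · exact absurd (eq_one_of_le hL hT hB hC (((mem _).1 h1).1.trans a.2)) ha
      · refine hN a x b _ ?_
        have : d a ≤ 1 := by
          simp only [d, if_neg ha]
          split_ifs <;> omega
        omega
  have nz : ∀ x ∈ Γ, P.co (Cb x) n ≠ 0 := by
    intro x hx e
    have := top x n ⟨1, hs1⟩ ⟨x, ((mem x).1 hx).2⟩ 0 le_rfl
    rw [e] at this
    simp [hx] at this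
  refine ⟨P, fun x hx => ?_, ⟨fun x k hk => ?_, fun m hm => ?_⟩, fun x => ⟨fun h => ?_, nz x⟩, ?_⟩
  · intro k
    funext a b α
    rw [hco]
    by_contra hc
    have : Cb.repr (Cb a * Cb x) b ≠ 0 := fun e => hc (by rw [e]; rfl)
    exact hx ⟨y0, h0, Relation.ReflTransGen.tail b.2 ⟨Cb a, 1, by simpa using this⟩⟩
  · funext a b α
    rw [top x k a b α hk.le, if_neg (by omega)]
    rfl
  · by_contra hc
    exact nz y0 h0 (hm y0 n (by omega))
  · by_contra hx
    refine h ?_
    funext a b α
    rw [top x n a b α le_rfl, if_neg (fun h => hx h.2.2.1)]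
    rfl
  · rw [linearIndependent_iff']
    intro t g hg x hx
    have := congrFun (congrFun (congrFun hg ⟨1, hs1⟩) ⟨x, ((mem x).1 x.2).2⟩) 0
    simp only [Finset.sum_apply, Pi.smul_apply, top _ _ _ _ _ le_rfl, Pi.zero_apply] at this
    rw [Finset.sum_eq_single x] at this
    · simpa using this
    · intro z _ hz
      rw [if_neg (fun h => hz (Subtype.ext h.2.1)), smul_zero]
    · exact fun h => absurd hx h

end Pool.Agent.P.MP_74db7f_al
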