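import Pool.Agent.P.MP_74db7f_al.Defs

namespace Pool.Agent.P.MP_74db7f_al

open Matrix CoxeterSystem

variable {B : Type*} [Fintype B] [DecidableEq B]

/-- Integral data of a generalised Cartan matrix with Coxeter matrix `M`. -/
structure GC (M : CoxeterMatrix B) (A : Matrix B B ℤ) : Prop where
  diag : ∀ i, A i i = 2
  off : ∀ i j, i ≠ j → A i j ≤ 0
  zero : ∀ i j, A i j = 0 → A j i = 0
  exp : ∀ i j, i ≠ j → M i j = coxExp (A i j * A j i)

/-- simple roots -/
def al (i : B) : B → ℤ := Pi.single i 1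

/-- simple reflections -/
def sig (A : Matrix B B ℤ) (i : B) : Module.End ℤ (B → ℤ) :=
  LinearMap.id - ((LinearMap.proj i).comp A.mulVecLin).smulRight (al i)

theorem sig_apply (A : Matrix B B ℤ) (i : B) (v : B → ℤ) :
    sig A i v = v - (A *ᵥ v) i • al i := by
  simp [sig]

theorem mulVec_al (A : Matrix B B ℤ) (i j : B) : (A *ᵥ al j) i = A i j := by
  simp [al]

theorem sig_two {M : CoxeterMatrix B} {A : Matrix B B ℤ} (h : GC M A) (i j : B)
    (v : B → ℤ) (p q : ℤ) :
    sig A j (v + p • al i + q • al j) =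
      v + p • al i + (-q - (A *ᵥ v) j - A j i * p) • al j := by
  rw [sig_apply, mulVec_add, mulVec_add, mulVec_smul, mulVec_smul]
  simp only [Pi.add_apply, Pi.smul_apply, mulVec_al, h.diag, smul_eq_mul]
  module

theorem sig_two' {M : CoxeterMatrix B} {A : Matrix B B ℤ} (h : GC M A) (i j : B)
    (v : B → ℤ) (p q : ℤ) :
    sig A i (v + p • al i + q • al j) =
      v + (-p - (A *ᵥ v) i - A i j * q) • al i + q • al j := by
  rw [add_right_comm, sig_two h, add_right_comm]

/-- the action of `σ_i σ_j` on rank two coordinates -/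
def stp (a b x y : ℤ) (z : ℤ × ℤ) : ℤ × ℤ :=
  (-z.1 - x + a * (-z.2 - y + b * z.1), -z.2 - y + b * z.1)

theorem sig_pow {M : CoxeterMatrix B} {A : Matrix B B ℤ} (h : GC M A) (i j : B)
    (v : B → ℤ) (n : ℕ) (z : ℤ × ℤ) :
    ((sig A i * sig A j) ^ n) (v + z.1 • al i + z.2 • al j) =
      v + ((stp (-A i j) (-A j i) ((A *ᵥ v) i) ((A *ᵥ v) j))^[n] z).1 • al i +
        ((stp (-A i j) (-A j i) ((A *ᵥ v) i) ((A *ᵥ v) j))^[n] z).2 • al j := by
  induction n generalizing z with
  | zero => simp
  | succ n ih =>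
    rw [pow_succ, Module.End.mul_apply, Module.End.mul_apply, sig_two h, sig_two' h,
      Function.iterate_succ_apply, ← ih]
    congr 1
    simp only [stp]
    module

theorem ab_cases {a b : ℤ} (ha : 0 ≤ a) (hb : 0 ≤ b) (h0 : a = 0 → b = 0) (h0' : b = 0 → a = 0) :
    (a = 0 ∧ b = 0) ∨ (a = 1 ∧ b = 1) ∨ (a = 1 ∧ b = 2) ∨ (a = 2 ∧ b = 1) ∨ (a = 1 ∧ b = 3) ∨
      (a = 3 ∧ b = 1) ∨ 4 ≤ a * b := by
  by_cases h4 : 4 ≤ a * b
  · simp [h4]
  rcases ha.eq_or_lt with rfl | ha'
  · simp [h0 rfl]
  rcases hb.eq_or_lt with rfl | hb'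
  · simp [h0' rfl]
  have h1 : a ≤ 3 := by nlinarith
  have h2 : b ≤ 3 := by nlinarith
  interval_cases a <;> interval_cases b <;> simp_all

omit [Fintype B] [DecidableEq B] in
theorem GC.cases {M : CoxeterMatrix B} {A : Matrix B B ℤ} (h : GC M A) {i j : B} (hij : i ≠ j) :
    (-A i j = 0 ∧ -A j i = 0 ∧ M i j = 2) ∨ (-A i j = 1 ∧ -A j i = 1 ∧ M i j = 3) ∨
      (-A i j = 1 ∧ -A j i = 2 ∧ M i j = 4) ∨ (-A i j = 2 ∧ -A j i = 1 ∧ M i j = 4) ∨
      (-A i j = 1 ∧ -A j i = 3 ∧ M i j = 6) ∨ (-A i j = 3 ∧ -A j i = 1 ∧ M i j = 6) ∨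
      (4 ≤ (-A i j) * (-A j i) ∧ M i j = 0) := by
  have he := h.exp i j hij
  have e : A i j * A j i = (-A i j) * (-A j i) := by ring
  rw [e] at he
  have := ab_cases (a := -A i j) (b := -A j i) (by linarith [h.off i j hij])
    (by linarith [h.off j i hij.symm]) (fun h1 => by simpa using h.zero i j (by simpa using h1))
    (fun h1 => by simpa using h.zero j i (by simpa using h1))
  rcases this with ⟨h1, h2⟩ | ⟨h1, h2⟩ | ⟨h1, h2⟩ | ⟨h1, h2⟩ | ⟨h1, h2⟩ | ⟨h1, h2⟩ | h4
  any_goals (rw [h1, h2] at he ⊢; simp [he, coxExp])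
  have : M i j = 0 := by
    rw [he, coxExp, if_neg (by omega), if_neg (by omega), if_neg (by omega), if_neg (by omega)]
  simp only [h4, this, and_self, or_true]

theorem GC.liftable {M : CoxeterMatrix B} {A : Matrix B B ℤ} (h : GC M A) :
    M.IsLiftable (sig A) := by
  intro i j
  refine LinearMap.ext fun v => ?_
  have key := fun n => sig_pow h i j v n (0, 0)
  simp only [zero_smul, add_zero] at key
  rw [key]
  by_cases hij : i = j
  · subst hij
    simp [stp, h.diag, add_assoc]
    ring
  rcases h.cases hij with ⟨h1, h2, h3⟩ | ⟨h1, h2, h3⟩ | ⟨h1, h2, h3⟩ | ⟨h1, h2, h3⟩ |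
    ⟨h1, h2, h3⟩ | ⟨h1, h2, h3⟩ | ⟨-, h3⟩
  all_goals rw [h3]
  any_goals rw [h1, h2]
  all_goals simp only [Function.iterate_succ, Function.iterate_zero, Function.comp, id, stp,
    Module.End.one_apply]
  all_goals module

/-- coordinates of an alternating word applied to a simple root -/
def alt (a b : ℤ) : ℕ → ℤ × ℤ
  | 0 => (1, 0)
  | k + 1 => if Even k then ((alt a b k).1, b * (alt a b k).1 - (alt a b k).2)
      else (a * (alt a b k).2 - (alt a b k).1, (alt a b k).2)

theorem alt_inf {a b : ℤ} (ha : 0 ≤ a) (hb : 0 ≤ b) (h : 4 ≤ a * b) (k : ℕ) :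
    0 ≤ (alt a b k).1 ∧ 0 ≤ (alt a b k).2 ∧
      (if Even k then 2 * (alt a b k).2 ≤ b * (alt a b k).1
        else 2 * (alt a b k).1 ≤ a * (alt a b k).2) := by
  induction k with
  | zero => simp [alt, hb]
  | succ k ih =>
    obtain ⟨h1, h2, h3⟩ := ih
    by_cases hk : Even k
    · have hk' : ¬ Even (k + 1) := by simp [Nat.even_add_one, hk]
      rw [if_pos hk] at h3
      simp only [alt, if_pos hk, if_neg hk']
      refine ⟨h1, by linarith, ?_⟩
      nlinarith [mul_le_mul_of_nonneg_left h3 ha, mul_le_mul_of_nonneg_right h h1]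
    · have hk' : Even (k + 1) := by simpa [Nat.even_add_one] using hk
      rw [if_neg hk] at h3
      simp only [alt, if_neg hk, if_pos hk']
      refine ⟨by linarith, h2, ?_⟩
      nlinarith [mul_le_mul_of_nonneg_left h3 hb, mul_le_mul_of_nonneg_right h h2]

omit [Fintype B] [DecidableEq B] in
theorem GC.alt_nonneg {M : CoxeterMatrix B} {A : Matrix B B ℤ} (h : GC M A) {i j : B}
    (hij : i ≠ j) {k : ℕ} (hk : M i j = 0 ∨ k < M i j) :
    0 ≤ (alt (-A i j) (-A j i) k).1 ∧ 0 ≤ (alt (-A i j) (-A j i) k).2 := by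
  rcases h.cases hij with ⟨h1, h2, h3⟩ | ⟨h1, h2, h3⟩ | ⟨h1, h2, h3⟩ | ⟨h1, h2, h3⟩ |
    ⟨h1, h2, h3⟩ | ⟨h1, h2, h3⟩ | ⟨h4, h3⟩
  rotate_right
  · have := alt_inf (by linarith [h.off i j hij]) (by linarith [h.off j i hij.symm]) h4 k
    exact ⟨this.1, this.2.1⟩
  all_goals
    rw [h3] at hk
    rw [h1, h2]
    obtain hk | hk := hk
    · omega
    interval_cases k <;> decide

variable {W : Type*} [Group W] {M : CoxeterMatrix B} (cs : CoxeterSystem M W)
  {A : Matrix B B ℤ} (h : GC M A)

/-- the reflection representation on the root lattice -/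
noncomputable def phi : W →* Module.End ℤ (B → ℤ) := cs.lift ⟨sig A, h.liftable⟩

theorem phi_simple (i : B) : phi cs h (cs.simple i) = sig A i :=
  cs.lift_apply_simple h.liftable i

theorem phi_alt (i j : B) (k : ℕ) :
    phi cs h (cs.wordProd (alternatingWord i j k)) (al i) =
      (alt (-A i j) (-A j i) k).1 • al i + (alt (-A i j) (-A j i) k).2 • al j := by
  induction k with
  | zero => simp [alternatingWord, alt]
  | succ k ih =>
    rw [alternatingWord_succ', wordProd_cons, map_mul, Module.End.mul_apply, ih, phi_simple]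
    by_cases hk : Even k
    · have := sig_two h i j 0 (alt (-A i j) (-A j i) k).1 (alt (-A i j) (-A j i) k).2
      simp only [zero_add, mulVec_zero, Pi.zero_apply] at this
      simp only [alt, if_pos hk, this]
      module
    · have := sig_two' h i j 0 (alt (-A i j) (-A j i) k).1 (alt (-A i j) (-A j i) k).2
      simp only [zero_add, mulVec_zero, Pi.zero_apply] at this
      simp only [alt, if_neg hk, this]
      module

theorem pos_of_asc (x : W) (i : B) (hx : cs.length x < cs.length (x * cs.simple i)) :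
    0 ≤ phi cs h x (al i) := by
  induction hn : cs.length x using Nat.strong_induction_on generalizing x i with
  | _ n ih =>
  by_cases h1 : x = 1
  · subst h1
    simp only [map_one, Module.End.one_apply, al]
    exact Pi.single_nonneg.2 zero_le_one
  obtain ⟨j, hj⟩ := cs.exists_rightDescent_of_ne_one h1
  have hij : i ≠ j := by
    rintro rfl
    exact absurd hj (not_lt.2 hx.le)
  -- maximal alternating suffix
  let P : ℕ → Prop := fun k => ∃ v : W, x = v * cs.wordProd (alternatingWord i j k) ∧
    cs.length x = cs.length v + k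
  have hP1 : P 1 := ⟨x * cs.simple j, by simp [alternatingWord],
    (cs.isRightDescent_iff.1 hj).symm⟩
  classical
  have hle : 1 ≤ cs.length x := by
    obtain ⟨v, -, hv⟩ := hP1
    omega
  have hPk : P (Nat.findGreatest P (cs.length x)) := Nat.findGreatest_spec hle hP1
  have hk1 : 1 ≤ Nat.findGreatest P (cs.length x) := Nat.le_findGreatest hle hP1
  have hmax : ¬ P (Nat.findGreatest P (cs.length x) + 1) := by
    intro hP
    have : Nat.findGreatest P (cs.length x) + 1 ≤ cs.length x := by
      obtain ⟨v, -, hv⟩ := hP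
      omega
    have := Nat.le_findGreatest this hP
    omega
  obtain ⟨k, hk⟩ : ∃ k, Nat.findGreatest P (cs.length x) = k + 1 :=
    ⟨Nat.findGreatest P (cs.length x) - 1, by omega⟩
  rw [hk] at hPk hmax
  obtain ⟨v, hv, hl⟩ := hPk
  have asc1 : cs.length v < cs.length (v * cs.simple (if Even (k + 1) then j else i)) := by
    rcases cs.length_mul_simple v (if Even (k + 1) then j else i) with h2 | h2
    · omega
    · exfalso
      refine hmax ⟨v * cs.simple (if Even (k + 1) then j else i), ?_, by omega⟩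
      rw [alternatingWord_succ', wordProd_cons, ← mul_assoc, simple_mul_simple_cancel_right]
      exact hv
  have asc2 : cs.length v < cs.length (v * cs.simple (if Even k then j else i)) := by
    rcases cs.length_mul_simple v (if Even k then j else i) with h2 | h2
    · omega
    · exfalso
      rw [alternatingWord_succ', wordProd_cons, ← mul_assoc] at hv
      have h3 := cs.length_mul_le (v * cs.simple (if Even k then j else i))
        (cs.wordProd (alternatingWord i j k))
      have h4 := cs.length_wordProd_le (alternatingWord i j k)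
      rw [length_alternatingWord] at h4
      rw [← hv] at h3
      omega
  have hvi : 0 ≤ phi cs h v (al i) ∧ 0 ≤ phi cs h v (al j) := by
    by_cases he : Even k
    · have he' : ¬ Even (k + 1) := by simp [Nat.even_add_one, he]
      rw [if_pos he] at asc2
      rw [if_neg he'] at asc1
      exact ⟨ih _ (by omega) v i asc1 rfl, ih _ (by omega) v j asc2 rfl⟩
    · have he' : Even (k + 1) := by simpa [Nat.even_add_one] using he
      rw [if_neg he] at asc2
      rw [if_pos he'] at asc1
      exact ⟨ih _ (by omega) v i asc2 rfl, ih _ (by omega) v j asc1 rfl⟩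
  have hM : M i j = 0 ∨ k + 1 < M i j := by
    by_contra hc
    push Not at hc
    have hnr := cs.not_isReduced_alternatingWord j i (m := k + 2)
      (by rw [M.symmetric]; exact hc.1) (by rw [M.symmetric]; omega)
    have h4 := cs.length_wordProd_le (alternatingWord j i (k + 2))
    unfold CoxeterSystem.IsReduced at hnr
    rw [length_alternatingWord] at h4 hnr
    have h5 : x * cs.simple i = v * cs.wordProd (alternatingWord j i (k + 2)) := by
      rw [alternatingWord_succ, wordProd_concat, ← mul_assoc, ← hv]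
    have h6 := cs.length_mul_le v (cs.wordProd (alternatingWord j i (k + 2)))
    rw [← h5] at h6
    omega
  obtain ⟨hp, hq⟩ := h.alt_nonneg hij hM
  rw [hv, map_mul, Module.End.mul_apply, phi_alt, map_add, map_smul, map_smul]
  exact add_nonneg (smul_nonneg hp hvi.1) (smul_nonneg hq hvi.2)

end Pool.Agent.P.MP_74db7f_al
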